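import Pool.Agent.Helper94.PU.Sheet
open MeasureTheory Metric Set Filter Topology Real
open scoped ENNReal NNReal

/-! Row GEO. -/

namespace H11ST
namespace PU
namespace Geo27

theorem inn2 (u v : E 2) : inner ℝ u v = u 0 * v 0 + u 1 * v 1 := by
  simp [PiLp.inner_apply, Fin.sum_univ_two, mul_comm]

theorem nrm2 (u : E 2) : ‖u‖ ^ 2 = u 0 ^ 2 + u 1 ^ 2 := by
  rw [← real_inner_self_eq_norm_sq, inn2]; ring

/-- the rotation by 90 degrees -/
noncomputable def J (u : E 2) : E 2 := !₂[-(u 1), u 0]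

theorem J0 (u : E 2) : J u 0 = -(u 1) := by simp [J]
theorem J1 (u : E 2) : J u 1 = u 0 := by simp [J]

theorem fr_alg {τ ν : E 2} (h : Fr τ ν) : τ 0 ^ 2 + τ 1 ^ 2 = 1 ∧ ν 0 ^ 2 + ν 1 ^ 2 = 1 ∧
    τ 0 * ν 0 + τ 1 * ν 1 = 0 := by
  refine ⟨?_, ?_, ?_⟩
  · rw [← nrm2, h.t1]; norm_num
  · rw [← nrm2, h.n1]; norm_num
  · rw [← inn2]; exact h.o

theorem fr_J {τ ν : E 2} (h : Fr τ ν) : ν = J τ ∨ ν = -J τ := by
  obtain ⟨h1, h2, h3⟩ := fr_alg h
  set κ : ℝ := ν 1 * τ 0 - ν 0 * τ 1 with hκ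
  have hκ2 : κ ^ 2 = 1 := by
    have : κ ^ 2 = (ν 0 ^ 2 + ν 1 ^ 2) * (τ 0 ^ 2 + τ 1 ^ 2) - (τ 0 * ν 0 + τ 1 * ν 1) ^ 2 := by
      rw [hκ]; ring
    rw [this, h1, h2, h3]; norm_num
  have e0 : ν 0 = κ * -(τ 1) := by
    rw [hκ]; linear_combination (-ν 0) * h1 + τ 0 * h3
  have e1 : ν 1 = κ * τ 0 := by
    rw [hκ]; linear_combination (-ν 1) * h1 + τ 1 * h3
  have hκ' : (κ - 1) * (κ + 1) = 0 := by linear_combination hκ2
  rcases mul_eq_zero.1 hκ' with h4 | h4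
  · left
    have hk : κ = 1 := by linarith
    rw [hk] at e0 e1
    ext i
    fin_cases i
    · simp [J0, e0]
    · simp [J1, e1]
  · right
    have hk : κ = -1 := by linarith
    rw [hk] at e0 e1
    ext i
    fin_cases i
    · simp [J0, e0]
    · simp [J1, e1]

theorem fr_norm {τ ν : E 2} (h : Fr τ ν) (y : E 2) :
    ‖y‖ ^ 2 = inner ℝ y τ ^ 2 + inner ℝ y ν ^ 2 := by
  obtain ⟨h1, -, -⟩ := fr_alg h
  rw [nrm2, inn2, inn2]
  rcases fr_J h with rfl | rfl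
  · rw [J0, J1]
    linear_combination (-(y 0 ^ 2 + y 1 ^ 2)) * h1
  · have e0 : (-J τ) 0 = τ 1 := by simp [J0]
    have e1 : (-J τ) 1 = -(τ 0) := by simp [J1]
    rw [e0, e1]
    linear_combination (-(y 0 ^ 2 + y 1 ^ 2)) * h1

theorem e2_in {τ ν : E 2} (h : Fr τ ν) : inner ℝ (e2 τ ν) τ = -(1 / 2 : ℝ) ∧
    inner ℝ (e2 τ ν) ν = √3 / 2 := by
  have h1 : inner ℝ ν τ = (0 : ℝ) := by rw [real_inner_comm]; exact h.o
  constructor
  · rw [e2, inner_sub_left, inner_smul_left, inner_smul_left, h1, real_inner_self_eq_norm_sq, h.t1]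
    simp
  · rw [e2, inner_sub_left, inner_smul_left, inner_smul_left, h.o, real_inner_self_eq_norm_sq, h.n1]
    simp

theorem e2_norm {τ ν : E 2} (h : Fr τ ν) : ‖e2 τ ν‖ = 1 := by
  have h1 := fr_norm h (e2 τ ν)
  rw [(e2_in h).1, (e2_in h).2] at h1
  have h3 : √3 ^ 2 = 3 := Real.sq_sqrt (by norm_num)
  have h4 : ‖e2 τ ν‖ ^ 2 = 1 := by rw [h1]; nlinarith
  nlinarith [norm_nonneg (e2 τ ν)]

theorem geo : ST_GEO := by
  intro τ ν y hF hG hy0 hy1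
  obtain ⟨hG1, hG2⟩ := hG
  have h3 : √3 ^ 2 = 3 := Real.sq_sqrt (by norm_num)
  have h3lo : (1.732 : ℝ) ≤ √3 := by
    rw [Real.le_sqrt' (by norm_num)]; norm_num
  have h3hi : √3 ≤ 1.7321 := by
    rw [Real.sqrt_le_left (by norm_num)]; norm_num
  have hn := fr_norm hF y
  obtain ⟨i1, i2⟩ := e2_in hF
  set a : ℝ := inner ℝ y τ with ha
  set b : ℝ := inner ℝ y ν with hb
  obtain ⟨g1, g2⟩ := abs_le.1 hG1
  have hyy0 : 0.9604 ≤ ‖y‖ ^ 2 := by
    have := pow_le_pow_left₀ (by norm_num) hy0 2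
    norm_num at this ⊢; exact this
  have hyy1 : ‖y‖ ^ 2 ≤ 1 := by
    have := pow_le_pow_left₀ (norm_nonneg y) hy1 2
    norm_num at this ⊢; exact this
  have hh0 : 0 ≤ 1 + b := by nlinarith
  have ha2 : a ^ 2 ≤ (1 / 2 + 3 / 5 * (1 + b)) ^ 2 := by
    rw [← sq_abs a]; exact pow_le_pow_left₀ (abs_nonneg _) hG1 2
  have hh1 : 1 + b ≤ 287 / 1000 := by
    by_contra hcon
    push Not at hcon
    nlinarith
  -- the scalar product with e2
  have hye : inner ℝ y (e2 τ ν) = √3 / 2 * b - a / 2 := by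
    rw [e2, inner_sub_right, inner_smul_right, inner_smul_right, ← ha, ← hb]; ring
  have hk : inner ℝ y (e2 τ ν) ≤ -(1 / 4 : ℝ) := by
    rw [hye]; nlinarith
  refine ⟨hh0, by linarith, hk, ?_⟩
  intro ρ₀ hρ0 hρ1
  set k : ℝ := -inner ℝ y (e2 τ ν) with hkdef
  have hk1 : 1 / 4 ≤ k := by linarith
  set q : ℝ := ‖y‖ ^ 2 - ρ₀ ^ 2 with hq
  have hρ2 : ρ₀ ^ 2 < ‖y‖ ^ 2 := pow_lt_pow_left₀ hρ1 (by linarith) (by norm_num)
  have hρ3 : (49 / 50 : ℝ) ^ 2 ≤ ρ₀ ^ 2 := pow_le_pow_left₀ (by norm_num) hρ0 2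
  have hk2 : (1 / 4 : ℝ) ^ 2 ≤ k ^ 2 := pow_le_pow_left₀ (by norm_num) hk1 2
  have hq0 : 0 < q := by rw [hq]; linarith
  have hq1 : q ≤ 0.04 := by rw [hq]; norm_num at hρ3 ⊢; linarith
  have hkq : 0 ≤ k ^ 2 - q := by norm_num at hk2 hq1 ⊢; linarith
  have hns : ∀ s : ℝ, ‖y + s • e2 τ ν‖ ^ 2 = ‖y‖ ^ 2 - 2 * k * s + s ^ 2 := by
    intro s
    rw [norm_add_sq_real, inner_smul_right, norm_smul, e2_norm hF, hkdef]
    rw [mul_one, Real.norm_eq_abs, sq_abs]; ring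
  set s : ℝ := k - √(k ^ 2 - q) with hs
  have hsq : √(k ^ 2 - q) ^ 2 = k ^ 2 - q := Real.sq_sqrt hkq
  have hsq0 : 0 ≤ √(k ^ 2 - q) := Real.sqrt_nonneg _
  have hs0 : 0 < s := by
    have : √(k ^ 2 - q) < k := by
      rw [Real.sqrt_lt' (by linarith)]; linarith
    linarith
  have hs1 : s ≤ 1 / 5 := by
    have : k - 1 / 5 ≤ √(k ^ 2 - q) := by
      apply Real.le_sqrt_of_sq_le
      nlinarith
    linarith
  have hsρ : ‖y + s • e2 τ ν‖ ^ 2 = ρ₀ ^ 2 := by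
    rw [hns, hs]
    have : ρ₀ ^ 2 = ‖y‖ ^ 2 - q := by rw [hq]; ring
    rw [this]
    linear_combination hsq
  refine ⟨s, hs0, hs1, ?_, ?_⟩
  · exact (pow_left_inj₀ (norm_nonneg _) (by linarith) (by norm_num)).1 hsρ
  · intro s' h0 h1
    have hA : inner ℝ (y + s' • e2 τ ν) τ = a - s' / 2 := by
      rw [inner_add_left, inner_smul_left, i1, ← ha]
      simp
      ring
    have hB : inner ℝ (y + s' • e2 τ ν) ν = b + s' * (√3 / 2) := by
      rw [inner_add_left, inner_smul_left, i2, ← hb]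
      simp
    have p1 : s' * 1.732 ≤ s' * √3 := mul_le_mul_of_nonneg_left h3lo h0.le
    have p2 : s' * √3 ≤ s' * 1.7321 := mul_le_mul_of_nonneg_left h3hi h0.le
    have q1 : s' ≤ 1 / 5 := h1.trans hs1
    have q2 : 0 < s' * (2 * k - s') := mul_pos h0 (by linarith)
    have q3 : 0 < 2 * k - s - s' := by linarith
    refine ⟨?_, ?_, ?_, ?_, ?_, ?_⟩
    · refine lt_of_pow_lt_pow_left₀ 2 (norm_nonneg _) ?_
      rw [hns]
      linarith
    · refine le_of_sq_le_sq ?_ (norm_nonneg _)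
      rw [← hsρ, hns, hns]
      have q4 := mul_nonneg (sub_nonneg.2 h1) q3.le
      linarith
    · intro h2
      refine lt_of_pow_lt_pow_left₀ 2 (norm_nonneg _) ?_
      rw [← hsρ, hns, hns]
      have q4 := mul_pos (sub_pos.2 h2) q3
      linarith
    · refine ⟨?_, ?_⟩
      · rw [hA, hB, abs_le]
        constructor <;> linarith
      · rw [hB]; linarith
    · intro h2
      rw [hA, hB]; linarith
    · intro h2
      rw [hA, hB]; linarith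

end Geo27

/-- (GEO) of the sheet. -/
theorem geo : ST_GEO := Geo27.geo

end PU
end H11ST
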